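import Mathlib

/-!
# Isomorphism-testing complexity versus number of isomorphism types

We prove the negated form of Q1 of MP_28ce77_lc, with deterministic multitape Turing machines as
the model of computation.
-/

open FirstOrder Filter

namespace Pool.Agent.Results.MP_28ce77_lc.IsoTime

/-! ## Classes of structures of finite type -/

/-- A finite signature: `rel` lists the arities of its relation symbols, `fn` the arities of its
function symbols (constants are function symbols of arity `0`). -/
structure Sig where
  rel : List ℕ
  fn : List ℕ

/-- The first-order language of a finite signature. -/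
def Sig.lang (σ : Sig) : FirstOrder.Language.{0, 0} where
  Functions k := {i : Fin σ.fn.length // σ.fn.get i = k}
  Relations k := {i : Fin σ.rel.length // σ.rel.get i = k}

/-- A first-order definable class of structures of finite type: a finite signature and a
first-order sentence over it. -/
structure FOClass where
  sig : Sig
  ax : sig.lang.Sentence

/-- The members of the class with universe `Fin n`. -/
def FOClass.Mem (C : FOClass) (n : ℕ) : Type :=
  {S : C.sig.lang.Structure (Fin n) // @FirstOrder.Language.Sentence.Realize C.sig.lang (Fin n) S C.ax}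

/-- Two structures with universe `Fin n` are isomorphic. -/
def Iso {L : FirstOrder.Language.{0, 0}} {n : ℕ} (S T : L.Structure (Fin n)) : Prop :=
  Nonempty (@FirstOrder.Language.Equiv L (Fin n) (Fin n) S T)

/-- Isomorphism as an equivalence relation on the members with universe `Fin n`. -/
def FOClass.isoSetoid (C : FOClass) (n : ℕ) : Setoid (C.Mem n) where
  r A B := Iso A.1 B.1
  iseqv :=
    { refl := fun A => ⟨@FirstOrder.Language.Equiv.refl C.sig.lang (Fin n) A.1⟩
      symm := fun {A B} ⟨e⟩ => ⟨@FirstOrder.Language.Equiv.symm C.sig.lang (Fin n) (Fin n) A.1 B.1 e⟩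
      trans := fun {A B D} ⟨e⟩ ⟨f⟩ =>
        ⟨@FirstOrder.Language.Equiv.comp C.sig.lang (Fin n) (Fin n) A.1 B.1 (Fin n) D.1 f e⟩ }

/-- `C.types n`, written `f_C(n)` in the problem: the number of isomorphism types of `n`-element
members of `C`. -/
noncomputable def FOClass.types (C : FOClass) (n : ℕ) : ℕ :=
  Nat.card (Quotient (C.isoSetoid n))

/-! ## Inputs: full tables -/

/-- The input letters. -/
inductive Letter
  | zero
  | one
  | sep

open Classical in
/-- The full table of the relation symbol number `i` of the structure `S`: one bit for every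
argument tuple. -/
noncomputable def relTable (σ : Sig) {n : ℕ} (S : σ.lang.Structure (Fin n))
    (i : Fin σ.rel.length) : List Letter :=
  List.ofFn fun j : Fin (n ^ σ.rel.get i) =>
    if @FirstOrder.Language.Structure.RelMap σ.lang (Fin n) S (σ.rel.get i) ⟨i, rfl⟩
      (finFunctionFinEquiv.symm j) then Letter.one else Letter.zero

/-- The full table of the function symbol number `i` of the structure `S`: for every argument
tuple the value in binary, followed by a separator. -/
noncomputable def fnTable (σ : Sig) {n : ℕ} (S : σ.lang.Structure (Fin n))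
    (i : Fin σ.fn.length) : List Letter :=
  (List.finRange (n ^ σ.fn.get i)).flatMap fun j =>
    ((Nat.bits (@FirstOrder.Language.Structure.funMap σ.lang (Fin n) S (σ.fn.get i) ⟨i, rfl⟩
      (finFunctionFinEquiv.symm j) : Fin n)).map fun b => if b then Letter.one else Letter.zero)
      ++ [Letter.sep]

/-- The full tables of all symbols of the structure `S`. -/
noncomputable def code (σ : Sig) {n : ℕ} (S : σ.lang.Structure (Fin n)) : List Letter :=
  (List.finRange σ.rel.length).flatMap (relTable σ S) ++
    (List.finRange σ.fn.length).flatMap (fnTable σ S)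

/-- The input word for a pair of `n`-element structures: the number `n` in unary, the full tables
of the first structure and the full tables of the second one, with separators. -/
noncomputable def pairCode (σ : Sig) {n : ℕ} (S T : σ.lang.Structure (Fin n)) : List Letter :=
  List.replicate n Letter.one ++ Letter.sep :: (code σ S ++ Letter.sep :: code σ T)

/-! ## Deterministic multitape Turing machines -/

/-- A deterministic Turing machine with `work + 1` two-way infinite tapes; tape `0` carries the
input. A state `s` is halting when `verdict s` is `some b`, and `b` is then the answer. -/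
structure Machine where
  work : ℕ
  Sym : Type
  symFinite : Finite Sym
  State : Type
  stateFinite : Finite State
  blank : Sym
  letter : Letter → Sym
  letter_inj : Function.Injective letter
  letter_ne_blank : ∀ a, letter a ≠ blank
  start : State
  verdict : State → Option Bool
  next : State → (Fin (work + 1) → Sym) → State
  write : State → (Fin (work + 1) → Sym) → Fin (work + 1) → Sym
  move : State → (Fin (work + 1) → Sym) → Fin (work + 1) → SignType

/-- A configuration: the state, the head positions and the tape contents. -/
structure Machine.Cfg (M : Machine) where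
  state : M.State
  head : Fin (M.work + 1) → ℤ
  tape : Fin (M.work + 1) → ℤ → M.Sym

/-- The initial configuration on the input word `w`: `w` stands on the cells `0, 1, 2, …` of
tape `0`, everything else is blank and all heads stand on cell `0`. -/
def Machine.init (M : Machine) (w : List Letter) : M.Cfg where
  state := M.start
  head := fun _ => 0
  tape := fun i z => if i = 0 ∧ 0 ≤ z then (w[z.toNat]?).elim M.blank M.letter else M.blank

/-- The symbols under the heads. -/
def Machine.Cfg.read {M : Machine} (c : M.Cfg) : Fin (M.work + 1) → M.Sym :=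
  fun i => c.tape i (c.head i)

/-- One step. -/
def Machine.step (M : Machine) (c : M.Cfg) : M.Cfg where
  state := M.next c.state c.read
  head := fun i => c.head i + (M.move c.state c.read i : ℤ)
  tape := fun i => Function.update (c.tape i) (c.head i) (M.write c.state c.read i)

/-- The configuration after `t` steps on the input word `w`. -/
def Machine.run (M : Machine) (w : List Letter) (t : ℕ) : M.Cfg :=
  M.step^[t] (M.init w)

/-- The answer in the state reached after `t` steps (`none` if that state is not halting). -/
def Machine.answer (M : Machine) (w : List Letter) (t : ℕ) : Option Bool :=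
  M.verdict (M.run w t).state

/-- On the input word `w` the machine halts, and `b` is its answer in the first halting state it
reaches. -/
def Machine.Outputs (M : Machine) (w : List Letter) (b : Bool) : Prop :=
  ∃ t, (∀ s < t, M.answer w s = none) ∧ M.answer w t = some b

/-- The number of steps of the machine on the input word `w` until it reaches a halting state. -/
noncomputable def Machine.time (M : Machine) (w : List Letter) : ℕ :=
  sInf {t | M.answer w t ≠ none}

/-! ## Isomorphism testing algorithms -/

/-- `M` is an isomorphism testing algorithm for the class `C`. -/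
def IsTester (C : FOClass) (M : Machine) : Prop :=
  ∀ (n : ℕ) (A B : C.Mem n), ∃ b : Bool,
    M.Outputs (pairCode C.sig A.1 B.1) b ∧ (b = true ↔ Iso A.1 B.1)

/-- `maxTime C M n`, written `m_C(M,n)` in the problem: the largest number of steps of `M` on a
pair of `n`-element members of `C`. -/
noncomputable def maxTime (C : FOClass) (M : Machine) (n : ℕ) : ℕ :=
  sSup {t | ∃ A B : C.Mem n, t = M.time (pairCode C.sig A.1 B.1)}

/-! ## Locality -/

theorem run_succ (M : Machine) (w : List Letter) (t : ℕ) :
    M.run w (t + 1) = M.step (M.run w t) := by
  unfold Machine.run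
  rw [Function.iterate_succ_apply']

theorem signType_le_one (a : SignType) : (a : ℤ) ≤ 1 := by
  cases a <;> simp

theorem locality (M : Machine) (w w' : List Letter) (N : ℕ)
    (h : ∀ i < N, w[i]? = w'[i]?) :
    ∀ t ≤ N, (M.run w t).state = (M.run w' t).state ∧ (M.run w t).head = (M.run w' t).head ∧
      (∀ i z, (i ≠ 0 ∨ z < (N : ℤ)) → (M.run w t).tape i z = (M.run w' t).tape i z) ∧
      (M.run w t).head 0 ≤ (t : ℤ) := by
  intro t
  induction t with
  | zero =>
    intro _
    refine ⟨rfl, rfl, ?_, by simp [Machine.run, Machine.init]⟩
    intro i z hz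
    simp only [Machine.run, Function.iterate_zero, id_eq, Machine.init]
    by_cases hi : i = 0 ∧ 0 ≤ z
    · rw [if_pos hi, if_pos hi]
      have hz' : z < (N : ℤ) := by
        rcases hz with hz | hz
        · exact absurd hi.1 hz
        · exact hz
      rw [h z.toNat (by omega)]
    · rw [if_neg hi, if_neg hi]
  | succ t ih =>
    intro ht
    obtain ⟨h1, h2, h3, h4⟩ := ih (by omega)
    have hread : (M.run w t).read = (M.run w' t).read := by
      funext i
      unfold Machine.Cfg.read
      rw [h2]
      apply h3
      by_cases hi : i = 0
      · right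
        subst hi
        rw [← h2]
        have : ((t : ℤ)) < N := by omega
        linarith
      · left
        exact hi
    rw [run_succ, run_succ]
    refine ⟨?_, ?_, ?_, ?_⟩
    · simp only [Machine.step]
      rw [h1, hread]
    · funext i
      simp only [Machine.step]
      rw [h1, hread, h2]
    · intro i z hz
      simp only [Machine.step]
      rw [h1, hread, h2]
      by_cases hzz : z = (M.run w' t).head i
      · subst hzz
        simp
      · rw [Function.update_of_ne hzz, Function.update_of_ne hzz]
        exact h3 i z hz
    · simp only [Machine.step]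
      have := signType_le_one (M.move (M.run w t).state (M.run w t).read 0)
      push_cast
      linarith

theorem answer_eq (M : Machine) (w w' : List Letter) (N : ℕ)
    (h : ∀ i < N, w[i]? = w'[i]?) (t : ℕ) (ht : t ≤ N) : M.answer w t = M.answer w' t := by
  unfold Machine.answer
  rw [(locality M w w' N h t ht).1]

/-- A machine that halts on `w` within `N` steps gives the same answer on every word with the
same first `N` letters. -/
theorem outputs_eq (M : Machine) (w w' : List Letter) (N : ℕ)
    (h : ∀ i < N, w[i]? = w'[i]?) (b b' : Bool) (hw : M.Outputs w b) (hw' : M.Outputs w' b')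
    (hN : M.time w ≤ N) : b = b' := by
  obtain ⟨t, ht, htb⟩ := hw
  obtain ⟨t', ht', htb'⟩ := hw'
  have htime : M.time w = t := by
    unfold Machine.time
    apply le_antisymm
    · apply Nat.sInf_le
      simp [htb]
    · apply le_csInf ⟨t, by simp [htb]⟩
      intro s hs
      by_contra hlt
      push Not at hlt
      exact hs (ht s hlt)
  have htN : t ≤ N := htime ▸ hN
  have e : M.answer w' t = some b := by
    rw [← answer_eq M w w' N h t htN]
    exact htb
  have : t = t' := by
    rcases lt_trichotomy t t' with hlt | heq | hgt
    · rw [ht' t hlt] at e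
      exact absurd e (by simp)
    · exact heq
    · have := answer_eq M w w' N h t' (by omega)
      rw [ht t' hgt, htb'] at this
      exact absurd this (by simp)
  subst this
  rw [e] at htb'
  exact Option.some_injective _ htb'

/-! ## The class `K`: pure sets -/

/-- The class of all finite sets without any structure: empty signature, no axioms. -/
def K : FOClass where
  sig := ⟨[], []⟩
  ax := ⊤

theorem K_iso {n : ℕ} (S T : K.sig.lang.Structure (Fin n)) : Iso S T := by
  refine ⟨@FirstOrder.Language.Equiv.mk K.sig.lang (Fin n) (Fin n) S T (Equiv.refl _) ?_ ?_⟩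
  · intro k f x
    exact f.1.elim0
  · intro k r x
    exact r.1.elim0

/-- The unique member of `K` with universe `Fin n`. -/
def kMem (n : ℕ) : K.Mem n :=
  letI S : K.sig.lang.Structure (Fin n) :=
    { funMap := fun {_} f _ => f.1.elim0, RelMap := fun {_} r _ => r.1.elim0 }
  ⟨S, FirstOrder.Language.BoundedFormula.realize_top.2 trivial⟩

theorem K_types_pos (n : ℕ) : 1 ≤ K.types n := by
  unfold FOClass.types
  have hs : Subsingleton (Quotient (K.isoSetoid n)) := by
    constructor
    intro a b
    induction a using Quotient.inductionOn
    induction b using Quotient.inductionOn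
    exact Quotient.sound (K_iso _ _)
  have : Finite (Quotient (K.isoSetoid n)) := Finite.of_subsingleton
  have : Nonempty (Quotient (K.isoSetoid n)) := ⟨Quotient.mk _ (kMem n)⟩
  exact Nat.card_pos

/-- The machine whose start state is halting with the answer yes. -/
def yes : Machine where
  work := 0
  Sym := Option Letter
  symFinite := by
    have : Finite Letter :=
      Finite.of_injective (fun a : Letter => (match a with
        | .zero => 0 | .one => 1 | .sep => 2 : Fin 3)) (by
          intro a b h
          cases a <;> cases b <;> simp_all)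
    infer_instance
  State := Unit
  stateFinite := inferInstance
  blank := none
  letter := some
  letter_inj := Option.some_injective _
  letter_ne_blank := by simp
  start := ()
  verdict := fun _ => some true
  next := fun s _ => s
  write := fun _ r => r
  move := fun _ _ _ => 0

theorem yes_time (w : List Letter) : yes.time w = 0 := by
  unfold Machine.time
  apply Nat.eq_zero_of_le_zero
  apply Nat.sInf_le
  simp [Machine.answer, yes]

theorem yes_tester : IsTester K yes := by
  intro n A B
  refine ⟨true, ⟨0, by simp, by simp [Machine.answer, yes]⟩, ?_⟩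
  simp only [true_iff]
  exact K_iso _ _

theorem yes_maxTime (n : ℕ) : maxTime K yes n = 0 := by
  unfold maxTime
  have : {t | ∃ A B : K.Mem n, t = yes.time (pairCode K.sig A.1 B.1)} = {0} := by
    ext t
    simp only [Set.mem_ofPred_eq, Set.mem_singleton_iff]
    constructor
    · rintro ⟨A, B, rfl⟩
      exact yes_time _
    · rintro rfl
      exact ⟨kMem n, kMem n, (yes_time _).symm⟩
  rw [this]
  simp

/-! ## The class `J`: at most one marked point -/

/-- The signature with one unary relation symbol. -/
def jSig : Sig := ⟨[1], []⟩

/-- The unary relation symbol. -/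
def mark : jSig.lang.Relations 1 := ⟨⟨0, by simp [jSig]⟩, rfl⟩

/-- The class of finite structures with one unary relation that holds for at most one element. -/
def J : FOClass where
  sig := jSig
  ax := ∀' ∀' ((mark.boundedFormula₁ (&0)) ⟹ ((mark.boundedFormula₁ (&1)) ⟹ ((&0) =' (&1))))

/-- `x` is marked in `S`. -/
def Marked {n : ℕ} (S : jSig.lang.Structure (Fin n)) (x : Fin n) : Prop :=
  @FirstOrder.Language.Structure.RelMap jSig.lang (Fin n) S 1 mark ![x]

theorem J_realize {n : ℕ} (S : jSig.lang.Structure (Fin n)) :
    @FirstOrder.Language.Sentence.Realize jSig.lang (Fin n) S J.ax ↔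
      ∀ x y, Marked S x → Marked S y → x = y := by
  simp only [J, FirstOrder.Language.Sentence.Realize, FirstOrder.Language.Formula.Realize,
    FirstOrder.Language.BoundedFormula.realize_all, FirstOrder.Language.BoundedFormula.realize_imp,
    FirstOrder.Language.BoundedFormula.realize_rel₁,
    FirstOrder.Language.BoundedFormula.realize_bdEqual, Marked]
  rfl

theorem rel_eq (k : ℕ) (r : jSig.lang.Relations k) : ∃ h : k = 1, h ▸ r = mark := by
  obtain ⟨⟨i, hi⟩, hr⟩ := r
  have : i = 0 := by
    simp [jSig] at hi
    exact hi
  subst this
  have hk : k = 1 := hr.symm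
  subst hk
  exact ⟨rfl, rfl⟩

theorem iso_of_equiv {n : ℕ} (S T : jSig.lang.Structure (Fin n)) (e : Fin n ≃ Fin n)
    (he : ∀ x, Marked S x ↔ Marked T (e x)) : Iso S T := by
  refine ⟨@FirstOrder.Language.Equiv.mk jSig.lang (Fin n) (Fin n) S T e ?_ ?_⟩
  · intro k f x
    exact f.1.elim0
  · intro k r x
    obtain ⟨h, hr⟩ := rel_eq k r
    subst h
    simp only at hr
    subst hr
    have h1 : x = ![x 0] := by
      ext i
      fin_cases i
      rfl
    have h2 : (e ∘ x) = ![e (x 0)] := by
      ext i
      fin_cases i
      rfl
    have := (he (x 0)).symm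
    unfold Marked at this
    rw [← h1, ← h2] at this
    exact this

theorem iso_marked {n : ℕ} {S T : jSig.lang.Structure (Fin n)} (h : Iso S T) :
    (∃ x, Marked S x) → ∃ x, Marked T x := by
  obtain ⟨e⟩ := h
  rintro ⟨x, hx⟩
  refine ⟨@FirstOrder.Language.Equiv.toEquiv jSig.lang (Fin n) (Fin n) S T e x, ?_⟩
  have := @FirstOrder.Language.Equiv.map_rel' jSig.lang (Fin n) (Fin n) S T e 1 mark ![x]
  have h2 : ((@FirstOrder.Language.Equiv.toEquiv jSig.lang (Fin n) (Fin n) S T e) ∘ ![x]) =
      ![(@FirstOrder.Language.Equiv.toEquiv jSig.lang (Fin n) (Fin n) S T e) x] := by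
    ext i
    fin_cases i
    rfl
  unfold Marked at hx ⊢
  rw [← h2]
  exact this.2 hx

theorem iso_of_marked {n : ℕ} (A B : J.Mem n) (h : (∃ x, Marked A.1 x) ↔ ∃ x, Marked B.1 x) :
    Iso A.1 B.1 := by
  have hA := (J_realize A.1).1 A.2
  have hB := (J_realize B.1).1 B.2
  by_cases hx : ∃ x, Marked A.1 x
  · obtain ⟨a, ha⟩ := hx
    obtain ⟨b, hb⟩ := h.1 ⟨a, ha⟩
    apply iso_of_equiv A.1 B.1 (Equiv.swap a b)
    intro x
    constructor
    · intro hx
      rw [hA x a hx ha, Equiv.swap_apply_left]
      exact hb
    · intro hx
      have h1 := hB _ _ hx hb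
      have h2 : x = a := by
        rw [← Equiv.swap_apply_right a b] at h1
        have := congrArg (Equiv.swap a b) h1
        simpa using this
      rw [h2]
      exact ha
  · have hy : ¬ ∃ x, Marked B.1 x := fun h' => hx (h.2 h')
    apply iso_of_equiv A.1 B.1 (Equiv.refl _)
    intro x
    exact ⟨fun h' => absurd ⟨x, h'⟩ hx, fun h' => absurd ⟨x, h'⟩ hy⟩

theorem J_types_le (n : ℕ) : J.types n ≤ 2 := by
  unfold FOClass.types
  let f : Quotient (J.isoSetoid n) → Prop :=
    Quotient.lift (fun A : J.Mem n => ∃ x, Marked A.1 x) (by
      intro A B h
      exact propext ⟨iso_marked h, iso_marked ((J.isoSetoid n).symm h)⟩)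
  have hf : Function.Injective f := by
    intro a b
    induction a using Quotient.inductionOn
    induction b using Quotient.inductionOn
    intro h
    exact Quotient.sound (iso_of_marked _ _ (iff_of_eq h))
  have := Nat.card_le_card_of_injective f hf
  simpa using this

instance J_finite (n : ℕ) : Finite (J.Mem n) := by
  let f : J.Mem n → (Fin n → Prop) := fun A x => Marked A.1 x
  apply Finite.of_injective f
  intro A B h
  apply Subtype.ext
  apply FirstOrder.Language.Structure.ext
  · funext k g
    exact g.1.elim0
  · funext k r x
    obtain ⟨hk, hr⟩ := rel_eq k r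
    subst hk
    simp only at hr
    subst hr
    have h1 : x = ![x 0] := by
      ext i
      fin_cases i
      rfl
    have := congrFun h (x 0)
    simp only [f, Marked] at this
    rw [← h1] at this
    exact this

/-- The member of `J` in which exactly the elements satisfying `P` are marked. -/
def jMem (n : ℕ) (P : Fin n → Prop) (hP : ∀ x y, P x → P y → x = y) : J.Mem n :=
  ⟨{ funMap := fun {_} f _ => f.1.elim0
     RelMap := fun {k} _ v => ∃ h : 0 < k, P (v ⟨0, h⟩) },
    (J_realize _).2 (by
      intro x y hx hy
      obtain ⟨_, hx⟩ := hx
      obtain ⟨_, hy⟩ := hy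
      exact hP x y hx hy)⟩

theorem jMem_marked (n : ℕ) (P : Fin n → Prop) (hP : ∀ x y, P x → P y → x = y) (x : Fin n) :
    Marked (jMem n P hP).1 x ↔ P x := by
  constructor
  · rintro ⟨_, h⟩
    exact h
  · intro h
    exact ⟨Nat.one_pos, h⟩

theorem J_time_le (M : Machine) (n : ℕ) (A B : J.Mem n) :
    M.time (pairCode J.sig A.1 B.1) ≤ maxTime J M n := by
  unfold maxTime
  apply le_csSup
  · apply Set.Finite.bddAbove
    have : {t | ∃ A B : J.Mem n, t = M.time (pairCode J.sig A.1 B.1)} =
        Set.range (fun q : J.Mem n × J.Mem n => M.time (pairCode J.sig q.1.1 q.2.1)) := by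
      ext t
      simp only [Set.mem_ofPred_eq, Set.mem_range, Prod.exists]
      constructor
      · rintro ⟨A, B, h⟩
        exact ⟨A, B, h.symm⟩
      · rintro ⟨A, B, h⟩
        exact ⟨A, B, h.symm⟩
    rw [this]
    exact Set.finite_range _
  · exact ⟨A, B, rfl⟩

/-- Every isomorphism testing algorithm for `J` needs more than `n` steps on some pair of
`n`-element members. -/
theorem J_lower (M : Machine) (hM : IsTester J M) (n : ℕ) (hn : 1 ≤ n) : n < maxTime J M n := by
  by_contra hcon
  push Not at hcon
  let E : J.Mem n := jMem n (fun _ => False) (by simp)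
  let F : J.Mem n := jMem n (fun x => x = ⟨0, hn⟩) (by
    rintro x y rfl rfl
    rfl)
  obtain ⟨b, hb, hb'⟩ := hM n E E
  obtain ⟨c, hc, hc'⟩ := hM n E F
  have hagree : ∀ i < n, (pairCode J.sig E.1 E.1)[i]? = (pairCode J.sig E.1 F.1)[i]? := by
    intro i hi
    unfold pairCode
    rw [List.getElem?_append_left (by simpa using hi),
      List.getElem?_append_left (by simpa using hi)]
  have hbc : b = c := outputs_eq M _ _ n hagree b c hb hc ((J_time_le M n E E).trans hcon)
  have h1 : b = true := hb'.2 ((J.isoSetoid n).refl E)
  have h2 : Iso E.1 F.1 := hc'.1 (hbc ▸ h1)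
  have h3 : ∃ x, Marked E.1 x :=
    iso_marked ((J.isoSetoid n).symm h2) ⟨⟨0, hn⟩, (jMem_marked n _ _ _).2 rfl⟩
  obtain ⟨x, hx⟩ := h3
  exact (jMem_marked n _ _ x).1 hx

/-- The negated form of Q1: there are first-order definable classes `J`, `K` of finite type and a
polynomial `q` with `f_J(n) ≤ q(f_K(n))` for all `n` such that, for every polynomial `p`, some
isomorphism testing algorithm `α` for `K` has no isomorphism testing algorithm `β` for `J` with
`m_J(β,n) ≤ p(m_K(α,n))` for all large `n`. -/
theorem result :
    ∃ (J K : FOClass) (q : Polynomial ℝ),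
      (∀ n : ℕ, (J.types n : ℝ) ≤ q.eval (K.types n : ℝ)) ∧
      ∀ p : Polynomial ℝ, ∃ α : Machine, IsTester K α ∧
        ¬ ∃ β : Machine, IsTester J β ∧
          ∀ᶠ n : ℕ in atTop, (maxTime J β n : ℝ) ≤ p.eval (maxTime K α n : ℝ) := by
  refine ⟨J, K, Polynomial.X + 1, ?_, ?_⟩
  · intro n
    simp only [Polynomial.eval_add, Polynomial.eval_X, Polynomial.eval_one]
    have h1 := J_types_le n
    have h2 := K_types_pos n
    exact_mod_cast h1.trans (by omega)
  · intro p
    refine ⟨yes, yes_tester, ?_⟩
    rintro ⟨β, hβ, h⟩
    obtain ⟨N, hN⟩ := eventually_atTop.1 h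
    obtain ⟨m, hm⟩ := exists_nat_ge (p.eval (0 : ℝ))
    have h1 := hN (max N (max m 1)) (le_max_left _ _)
    rw [yes_maxTime] at h1
    have h2 := J_lower β hβ (max N (max m 1)) (by omega)
    have h3 : ((max N (max m 1) : ℕ) : ℝ) < (maxTime J β (max N (max m 1)) : ℝ) := by
      exact_mod_cast h2
    have h4 : (m : ℝ) ≤ ((max N (max m 1) : ℕ) : ℝ) := by
      exact_mod_cast (by omega : m ≤ max N (max m 1))
    simp only [Nat.cast_zero] at h1
    linarith

end Pool.Agent.Results.MP_28ce77_lc.IsoTime
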